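import Pool.Agent.H600Z.GM.Main

namespace Pool.Agent.Results.MP_1b145a_lc.ACenteredTP

open Cardinal Order Pool.Agent.H600Z.GM

universe u

/-- If the guessing model principle holds at `κ⁺⁺` and `P` is `κ⁺`-centered, then every
condition of `P` forces that `κ⁺` and `κ⁺⁺` are still cardinals and that every `κ⁺⁺`-tree has a
cofinal branch. -/
theorem result (κ : Cardinal.{u}) (hκ : ℵ₀ ≤ κ) (hG : GMP κ) (P : Type u) [Preorder P]
    (hP : Centered κ P) (p : P) :
    p ∈ StaysCardinal P (succ κ) ∧ p ∈ StaysCardinal P (succ (succ κ)) ∧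
      p ∈ TreeProp P (succ (succ κ)) :=
  ⟨staysCardinal hκ le_rfl hP p, staysCardinal (hκ.trans (le_succ κ)) (le_succ κ) hP p,
    treeProp hκ hG hP p⟩

end Pool.Agent.Results.MP_1b145a_lc.ACenteredTP
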